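import Pool.Agent.H30.BV.Targets

/-!
Board bv_modules, module ES: elementary symmetric sums.
-/

set_option autoImplicit false

open Finset Real
open scoped Nat

namespace Pool.Agent.H67.BV

open Pool.Agent.H30.BV

lemma pow_first_two (S g : ℝ) (hS : 0 ≤ S) (hg : 0 ≤ g) (k : ℕ) :
    S ^ (k + 1) + (k + 1) * (g * S ^ k) ≤ (S + g) ^ (k + 1) := by
  induction k with
  | zero => simp
  | succ k ih =>
    have h1 : (S + g) ^ (k + 1 + 1) = (S + g) * (S + g) ^ (k + 1) := by ring
    rw [h1]
    have h2 : (S + g) * (S ^ (k + 1) + (k + 1) * (g * S ^ k)) ≤ (S + g) * (S + g) ^ (k + 1) :=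
      mul_le_mul_of_nonneg_left ih (by positivity)
    refine le_trans ?_ h2
    have h3 : 0 ≤ (k + 1 : ℝ) * (g * (g * S ^ k)) := by positivity
    have h4 : (S + g) * (S ^ (k + 1) + (k + 1) * (g * S ^ k)) =
        S ^ (k + 1 + 1) + (((k + 1 : ℕ) : ℝ) + 1) * (g * S ^ (k + 1)) +
          (k + 1 : ℝ) * (g * (g * S ^ k)) := by
      push_cast
      ring
    rw [h4]
    linarith

/-- Module ES. -/
theorem pf_ES : T_ES := by
  intro P g
  induction P using Finset.induction_on with
  | empty =>
    intro k _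
    rw [Finset.powerset_empty, Finset.sum_singleton]
    rcases k with _ | k
    · simp
    · simp
  | insert p P hp ih =>
    intro k hg
    have hgP : ∀ q ∈ P, 0 ≤ g q := fun q hq => hg q (Finset.mem_insert_of_mem hq)
    have hgp : 0 ≤ g p := hg p (Finset.mem_insert_self _ _)
    have hS : 0 ≤ ∑ q ∈ P, g q := Finset.sum_nonneg hgP
    rw [Finset.sum_powerset_insert hp, Finset.sum_insert hp]
    have key : ∀ s ∈ P.powerset, (if (insert p s).card = k then (1 : ℝ) else 0) *
        ∏ q ∈ insert p s, g q = g p * ((if s.card + 1 = k then (1 : ℝ) else 0) *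
          ∏ q ∈ s, g q) := by
      intro s hs
      have hps : p ∉ s := fun h => hp (Finset.mem_powerset.1 hs h)
      rw [Finset.card_insert_of_notMem hps, Finset.prod_insert hps]
      ring
    rw [Finset.sum_congr rfl key, ← Finset.mul_sum]
    rcases k with _ | k
    · have h0 : ∑ s ∈ P.powerset, (if s.card + 1 = 0 then (1 : ℝ) else 0) * ∏ q ∈ s, g q = 0 :=
        Finset.sum_eq_zero fun s _ => by simp
      rw [h0, mul_zero, add_zero]
      exact ih 0 hgP
    · have h1 := ih (k + 1) hgP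
      have h2 := ih k hgP
      have h3 : ∑ s ∈ P.powerset, (if s.card + 1 = k + 1 then (1 : ℝ) else 0) * ∏ q ∈ s, g q =
          ∑ s ∈ P.powerset, (if s.card = k then (1 : ℝ) else 0) * ∏ q ∈ s, g q :=
        Finset.sum_congr rfl fun s _ => by simp
      rw [h3]
      have h4 := pow_first_two (∑ q ∈ P, g q) (g p) hS hgp k
      have hk : (0 : ℝ) < (k + 1)! := by positivity
      have hfac : (((k + 1)! : ℕ) : ℝ) = (k + 1) * (k ! : ℝ) := by
        rw [Nat.factorial_succ]
        push_cast
        ring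
      have h5 : g p * ∑ s ∈ P.powerset, (if s.card = k then (1 : ℝ) else 0) * ∏ q ∈ s, g q ≤
          g p * ((∑ q ∈ P, g q) ^ k / k !) := mul_le_mul_of_nonneg_left h2 hgp
      have h6 : (∑ q ∈ P, g q) ^ (k + 1) / (k + 1)! + g p * ((∑ q ∈ P, g q) ^ k / k !) ≤
          (g p + ∑ q ∈ P, g q) ^ (k + 1) / (k + 1)! := by
        rw [le_div_iff₀ hk]
        have hk0 : (k ! : ℝ) ≠ 0 := by positivity
        have : ((∑ q ∈ P, g q) ^ (k + 1) / (k + 1)! + g p * ((∑ q ∈ P, g q) ^ k / k !)) *
            (k + 1)! = (∑ q ∈ P, g q) ^ (k + 1) + (k + 1) * (g p * (∑ q ∈ P, g q) ^ k) := by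
          rw [add_mul, div_mul_cancel₀ _ hk.ne', hfac]
          field_simp
        rw [this, add_comm (g p)]
        exact h4
      linarith

end Pool.Agent.H67.BV
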