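import Pool.Agent.H27.LS.Exist
import Pool.Agent.H22.MR.Cheb
import Pool.Agent.H30.BV.Targets

/-!
Board bv_modules, module WM: the total weight.
-/

set_option autoImplicit false

open Finset Real ArithmeticFunction Filter
open scoped Nat

namespace Pool.Agent.H67.BV

open Pool.Agent.H30.BV
open Pool.Agent.H27.LS (hat hat_le_one hat_nonneg main_sum_ge)

lemma ev_small1 : ∀ᶠ X : ℝ in atTop, Real.log (8 / 5 * X + 2) ≤ 1 / 100 * X := by
  have h := (Real.isLittleO_log_id_atTop.bound (show (0 : ℝ) < 1 / 200 by norm_num))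
  have ht : Tendsto (fun X : ℝ => 8 / 5 * X + 2) atTop atTop :=
    tendsto_atTop_add_const_right _ _ (tendsto_id.const_mul_atTop (by norm_num))
  filter_upwards [ht.eventually h, eventually_ge_atTop (10 : ℝ)] with X hX h10
  have h1 : Real.log (8 / 5 * X + 2) ≤ ‖Real.log (8 / 5 * X + 2)‖ := Real.le_norm_self _
  have h2 : ‖id (8 / 5 * X + 2)‖ = 8 / 5 * X + 2 := by
    rw [id, Real.norm_of_nonneg (by linarith)]
  rw [h2] at hX
  linarith

lemma ev_small2 : ∀ᶠ X : ℝ in atTop, 2 * √(X / 2) * Real.log (X / 2) ≤ 1 / 100 * X := by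
  have h := ((isLittleO_log_rpow_atTop (show (0 : ℝ) < 1 / 2 by norm_num)).bound
    (show (0 : ℝ) < 1 / 200 by norm_num))
  have ht : Tendsto (fun X : ℝ => X / 2) atTop atTop := tendsto_id.atTop_div_const (by norm_num)
  filter_upwards [ht.eventually h, eventually_ge_atTop (10 : ℝ)] with X hX h10
  have h1 : Real.log (X / 2) ≤ ‖Real.log (X / 2)‖ := Real.le_norm_self _
  have h2 : ‖(X / 2) ^ (1 / 2 : ℝ)‖ = √(X / 2) := by
    rw [← Real.sqrt_eq_rpow, Real.norm_of_nonneg (Real.sqrt_nonneg _)]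
  rw [h2] at hX
  have h3 : √(X / 2) * √(X / 2) = X / 2 := Real.mul_self_sqrt (by linarith)
  have h4 : 0 ≤ √(X / 2) := Real.sqrt_nonneg _
  have h5 : 2 * √(X / 2) * Real.log (X / 2) ≤ 2 * √(X / 2) * (1 / 200 * √(X / 2)) :=
    mul_le_mul_of_nonneg_left (h1.trans hX) (by positivity)
  have h6 : 2 * √(X / 2) * (1 / 200 * √(X / 2)) = 1 / 100 * (√(X / 2) * √(X / 2)) := by ring
  rw [h6, h3] at h5
  linarith

/-- Module WM. -/
theorem pf_WM : T_WM := by
  obtain ⟨A, hA⟩ := eventually_atTop.1 (ev_small1.and ev_small2)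
  refine ⟨3 / 100, max A 10, by norm_num, fun X hX => ?_⟩
  have hXA : A ≤ X := (le_max_left _ _).trans hX
  have hX10 : 10 ≤ X := (le_max_right _ _).trans hX
  obtain ⟨hs1, hs2⟩ := hA X hXA
  have hN : 3 * X ≤ (NX X : ℝ) := Nat.le_ceil _
  have hN' : (NX X : ℝ) ≤ 3 * X + 1 := (Nat.ceil_lt_add_one (by linarith)).le
  constructor
  · have h1 := main_sum_ge (X := X) (by linarith) hN
    have h2 := Chebyshev.psi_ge' (x := 8 / 5 * X) (by linarith)
    have h3 := Chebyshev.psi_le (x := X / 2) (by linarith)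
    have hl2 : 0.6931471803 < Real.log 2 := Real.log_two_gt_d9
    have hl3 : Real.log 2 < 0.6931471808 := Real.log_two_lt_d9
    have h4 : Real.log 4 = 2 * Real.log 2 := by
      rw [show (4 : ℝ) = 2 ^ 2 by norm_num, Real.log_pow]
      norm_num
    rw [h4] at h3
    have h5 : 3 / 10 * X ≤ (8 / 5 * X - 1) * Real.log 2 - X * Real.log 2 := by
      norm_num at hl2
      nlinarith
    have h6 : WX X = ∑ n ∈ Icc 1 (NX X), Λ n * hat (Real.log (n / X)) := rfl
    rw [h6]
    refine le_trans ?_ h1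
    linarith
  · have h1 : WX X ≤ ∑ n ∈ Icc 1 (NX X), Λ n := by
      refine Finset.sum_le_sum fun n _ => ?_
      exact mul_le_of_le_one_right vonMangoldt_nonneg (hat_le_one _)
    have h2 := Pool.Agent.H22.MR.psi_bound (NX X : ℝ) (Nat.cast_nonneg _)
    rw [Nat.floor_natCast] at h2
    linarith

end Pool.Agent.H67.BV
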